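import Mathlib

/-!
Two local maximum modulus lemmas for analytic functions (helper241).

`markov_disc`: a function which is analytic in the disc of radius `2`, bounded by `M` on the
segment `[0, 1]` and by `M e^Λ` in the disc is bounded by `e^5 M` in the disc of radius `Λ⁻²`
about the END POINT `0` of the segment.

`three_lines`: a local form of the three lines theorem in a rectangle.
-/

open Complex Set Filter Topology

namespace Q241.MZ

/-- the maximum principle in an open rectangle -/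
theorem rect_max {a b c d : ℝ} (hab : a < b) (hcd : c < d) {f : ℂ → ℂ}
    (hf : ∀ z ∈ Icc a b ×ℂ Icc c d, DifferentiableAt ℂ f z) {C : ℝ}
    (hl : ∀ y ∈ Icc c d, ‖f ⟨a, y⟩‖ ≤ C) (hr : ∀ y ∈ Icc c d, ‖f ⟨b, y⟩‖ ≤ C)
    (hb : ∀ x ∈ Icc a b, ‖f ⟨x, c⟩‖ ≤ C) (ht : ∀ x ∈ Icc a b, ‖f ⟨x, d⟩‖ ≤ C)
    {z : ℂ} (hz : z ∈ Icc a b ×ℂ Icc c d) : ‖f z‖ ≤ C := by
  have hcl : closure (Ioo a b ×ℂ Ioo c d) = Icc a b ×ℂ Icc c d := by
    rw [closure_reProdIm, closure_Ioo hab.ne, closure_Ioo hcd.ne]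
  have hbd : Bornology.IsBounded (Ioo a b ×ℂ Ioo c d) :=
    (Metric.isBounded_Ioo a b).reProdIm (Metric.isBounded_Ioo c d)
  have hdiff : DiffContOnCl ℂ f (Ioo a b ×ℂ Ioo c d) := by
    refine ⟨fun w hw => (hf w ?_).differentiableWithinAt, fun w hw => ?_⟩
    · rw [← hcl]; exact subset_closure hw
    · rw [hcl] at hw; exact (hf w hw).continuousAt.continuousWithinAt
  refine Complex.norm_le_of_forall_mem_frontier_norm_le hbd hdiff ?_ (by rw [hcl]; exact hz)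
  intro w hw
  have hw1 : w ∈ Icc a b ×ℂ Icc c d := by rw [← hcl]; exact frontier_subset_closure hw
  have hopen : IsOpen (Ioo a b ×ℂ Ioo c d) := isOpen_Ioo.reProdIm isOpen_Ioo
  have hw2 : w ∉ Ioo a b ×ℂ Ioo c d := by
    intro h
    rw [hopen.frontier_eq] at hw
    exact hw.2 h
  rw [mem_reProdIm] at hw1 hw2
  obtain ⟨⟨h1, h2⟩, h3, h4⟩ := hw1
  rcases h1.eq_or_lt with h | h
  · have : w = ⟨a, w.im⟩ := Complex.ext h.symm rfl
    rw [this]; exact hl _ ⟨h3, h4⟩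
  rcases h2.eq_or_lt with h' | h'
  · have : w = ⟨b, w.im⟩ := Complex.ext h' rfl
    rw [this]; exact hr _ ⟨h3, h4⟩
  rcases h3.eq_or_lt with h'' | h''
  · have : w = ⟨w.re, c⟩ := Complex.ext rfl h''.symm
    rw [this]; exact hb _ ⟨h1, h2⟩
  rcases h4.eq_or_lt with h''' | h'''
  · have : w = ⟨w.re, d⟩ := Complex.ext rfl h'''
    rw [this]; exact ht _ ⟨h1, h2⟩
  · exact absurd ⟨⟨h, h'⟩, h'', h'''⟩ hw2

/-- a square root in the closed upper half plane -/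
theorem exists_sqrt_im (z : ℂ) : ∃ u : ℂ, u ^ 2 = z ∧ 0 ≤ u.im := by
  obtain ⟨u, hu⟩ := IsAlgClosed.exists_pow_nat_eq z two_pos
  rcases le_total 0 u.im with h | h
  · exact ⟨u, hu, h⟩
  · exact ⟨-u, by rw [neg_sq, hu], by simpa using h⟩

/-- Local bound at the end point of a segment. -/
theorem markov_disc {f : ℂ → ℂ} (hf : ∀ z : ℂ, ‖z‖ < 2 → DifferentiableAt ℂ f z) {M L : ℝ}
    (hM : 0 ≤ M) (hL : 2 ≤ L) (h1 : ∀ z : ℂ, ‖z‖ < 2 → ‖f z‖ ≤ M * Real.exp L)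
    (h2 : ∀ x : ℝ, 0 ≤ x → x ≤ 1 → ‖f x‖ ≤ M) {z : ℂ} (hz : ‖z‖ ≤ (L ^ 2)⁻¹) :
    ‖f z‖ ≤ Real.exp 5 * M := by
  have hL0 : 0 < L := by linarith
  obtain ⟨u, hu, hui⟩ := exists_sqrt_im z
  have hun : ‖u‖ ≤ L⁻¹ := by
    have h : ‖u‖ ^ 2 ≤ L⁻¹ ^ 2 := by
      rw [← norm_pow, hu, inv_pow]; exact hz
    exact (pow_le_pow_iff_left₀ (norm_nonneg _) (by positivity) two_ne_zero).1 h
  have hun2 : ‖u‖ ≤ 1 / 2 := hun.trans (by
    rw [inv_eq_one_div]; exact one_div_le_one_div_of_le (by norm_num) hL)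
  -- the auxiliary function
  set G : ℂ → ℂ := fun w => f (w ^ 2) * Complex.exp (-(2 * L : ℝ) * w ^ 2 + (3 * L : ℝ) * I * w)
    with hG
  have hre : ∀ w : ℂ, (-((2 * L : ℝ) : ℂ) * w ^ 2 + ((3 * L : ℝ) : ℂ) * I * w).re =
      -(2 * L) * (w.re ^ 2 - w.im ^ 2) - 3 * L * w.im := by
    intro w
    simp [pow_two, Complex.mul_re, Complex.mul_im]
    ring
  have hGn : ∀ w : ℂ, ‖G w‖ = ‖f (w ^ 2)‖ *
      Real.exp (-(2 * L) * (w.re ^ 2 - w.im ^ 2) - 3 * L * w.im) := by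
    intro w
    rw [hG]; dsimp only
    rw [norm_mul, Complex.norm_exp, hre]
  have hin : ∀ w ∈ Icc (-1 : ℝ) 1 ×ℂ Icc (0 : ℝ) (1 / 2), ‖w ^ 2‖ < 2 := by
    intro w hw
    rw [mem_reProdIm] at hw
    obtain ⟨⟨a1, a2⟩, a3, a4⟩ := hw
    rw [norm_pow, ← Complex.normSq_eq_norm_sq, Complex.normSq_apply]
    nlinarith
  have hGM : ‖G u‖ ≤ M := by
    refine rect_max (a := -1) (b := 1) (c := 0) (d := 1 / 2) (by norm_num) (by norm_num) (f := G)
      ?_ ?_ ?_ ?_ ?_ ?_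
    · intro w hw
      have h3 : DifferentiableAt ℂ (fun w : ℂ => f (w ^ 2)) w :=
        DifferentiableAt.comp (f := fun w : ℂ => w ^ 2) w (hf (w ^ 2) (hin w hw)) (by fun_prop)
      refine DifferentiableAt.mul h3 ?_
      fun_prop
    · intro y hy
      rw [hGn]
      have h3 := h1 ((⟨-1, y⟩ : ℂ) ^ 2) (hin _ (by
        rw [mem_reProdIm]; exact ⟨⟨le_rfl, by norm_num⟩, hy⟩))
      have h4 : Real.exp (-(2 * L) * ((-1 : ℝ) ^ 2 - y ^ 2) - 3 * L * y) ≤ Real.exp (-L) := by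
        apply Real.exp_le_exp.2
        obtain ⟨hy1, hy2⟩ := hy
        have : y ^ 2 ≤ 1 / 4 := by nlinarith
        nlinarith [mul_nonneg hL0.le hy1]
      calc _ ≤ (M * Real.exp L) * Real.exp (-L) := by gcongr
        _ = M := by rw [mul_assoc, ← Real.exp_add]; simp
    · intro y hy
      rw [hGn]
      have h3 := h1 ((⟨1, y⟩ : ℂ) ^ 2) (hin _ (by
        rw [mem_reProdIm]; exact ⟨⟨by norm_num, le_rfl⟩, hy⟩))
      have h4 : Real.exp (-(2 * L) * ((1 : ℝ) ^ 2 - y ^ 2) - 3 * L * y) ≤ Real.exp (-L) := by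
        apply Real.exp_le_exp.2
        obtain ⟨hy1, hy2⟩ := hy
        have : y ^ 2 ≤ 1 / 4 := by nlinarith
        nlinarith [mul_nonneg hL0.le hy1]
      calc _ ≤ (M * Real.exp L) * Real.exp (-L) := by gcongr
        _ = M := by rw [mul_assoc, ← Real.exp_add]; simp
    · intro x hx
      rw [hGn]
      have hx2 : (⟨x, 0⟩ : ℂ) ^ 2 = ((x ^ 2 : ℝ) : ℂ) := by
        rw [Complex.ext_iff]; simp [pow_two]
      have hx3 : x ^ 2 ≤ 1 := by
        obtain ⟨hx1, hx2⟩ := hx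
        nlinarith
      rw [hx2]
      have h3 := h2 (x ^ 2) (by positivity) hx3
      have h4 : Real.exp (-(2 * L) * (x ^ 2 - (0 : ℝ) ^ 2) - 3 * L * 0) ≤ 1 := by
        rw [Real.exp_le_one_iff]
        nlinarith [mul_nonneg hL0.le (sq_nonneg x)]
      calc _ ≤ M * 1 := by gcongr
        _ = M := mul_one _
    · intro x hx
      rw [hGn]
      have h3 := h1 ((⟨x, 1 / 2⟩ : ℂ) ^ 2) (hin _ (by
        rw [mem_reProdIm]; exact ⟨hx, ⟨by norm_num, le_rfl⟩⟩))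
      have h4 : Real.exp (-(2 * L) * (x ^ 2 - (1 / 2 : ℝ) ^ 2) - 3 * L * (1 / 2)) ≤
          Real.exp (-L) := by
        apply Real.exp_le_exp.2
        nlinarith [mul_nonneg hL0.le (sq_nonneg x)]
      calc _ ≤ (M * Real.exp L) * Real.exp (-L) := by gcongr
        _ = M := by rw [mul_assoc, ← Real.exp_add]; simp
    · rw [mem_reProdIm]
      have h3 := (Complex.abs_re_le_norm u).trans hun2
      have h4 := (Complex.abs_im_le_norm u).trans hun2
      rw [abs_le] at h3 h4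
      exact ⟨⟨by linarith, by linarith⟩, hui, h4.2⟩
  rw [hGn, hu] at hGM
  have h5 : Real.exp (-5) ≤ Real.exp (-(2 * L) * (u.re ^ 2 - u.im ^ 2) - 3 * L * u.im) := by
    apply Real.exp_le_exp.2
    have h3 := (Complex.abs_re_le_norm u).trans hun
    have h4 := (Complex.abs_im_le_norm u).trans hun
    have h6 : u.re ^ 2 ≤ L⁻¹ ^ 2 := by
      rw [← sq_abs]; exact pow_le_pow_left₀ (abs_nonneg _) h3 2
    have h7 : L * L⁻¹ = 1 := mul_inv_cancel₀ hL0.ne'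
    have h8 : L * L⁻¹ ^ 2 = L⁻¹ := by rw [pow_two, ← mul_assoc, h7, one_mul]
    have h9 : L⁻¹ ≤ 1 / 2 := by
      rw [inv_eq_one_div]; exact one_div_le_one_div_of_le (by norm_num) hL
    have h10 : L * u.re ^ 2 ≤ 1 / 2 := by
      calc L * u.re ^ 2 ≤ L * L⁻¹ ^ 2 := by gcongr
        _ ≤ 1 / 2 := by rw [h8]; exact h9
    have h11 : L * u.im ≤ 1 := by
      calc L * u.im ≤ L * L⁻¹ := by gcongr; exact (le_abs_self _).trans h4
        _ = 1 := h7
    nlinarith [mul_nonneg hL0.le (sq_nonneg u.im)]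
  have h6 : ‖f z‖ * Real.exp (-5) ≤ M := le_trans (by gcongr) hGM
  calc ‖f z‖ = Real.exp 5 * (‖f z‖ * Real.exp (-5)) := by
        rw [mul_comm (Real.exp 5), mul_assoc, ← Real.exp_add]; simp
    _ ≤ Real.exp 5 * M := by gcongr

/-- The derivatives of a function analytic near the end point of a segment on which it is
bounded by `M`. -/
theorem markov_deriv {f : ℂ → ℂ} (hf : ∀ z : ℂ, ‖z‖ < 2 → DifferentiableAt ℂ f z) {M L : ℝ}
    (hM : 0 ≤ M) (hL : 2 ≤ L) (h1 : ∀ z : ℂ, ‖z‖ < 2 → ‖f z‖ ≤ M * Real.exp L)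
    (h2 : ∀ x : ℝ, 0 ≤ x → x ≤ 1 → ‖f x‖ ≤ M) (n : ℕ) :
    ‖iteratedDeriv n f 0‖ ≤ n.factorial * (Real.exp 5 * M) * L ^ (2 * n) := by
  have hL0 : 0 < L := by linarith
  have hr : 0 < (L ^ 2)⁻¹ := by positivity
  have hr1 : (L ^ 2)⁻¹ < 2 := by
    have : (1 : ℝ) ≤ L ^ 2 := by nlinarith
    calc (L ^ 2)⁻¹ ≤ 1 := inv_le_one_of_one_le₀ this
      _ < 2 := by norm_num
  have hd : DiffContOnCl ℂ f (Metric.ball 0 (L ^ 2)⁻¹) := by
    have h : ∀ w ∈ Metric.closedBall (0 : ℂ) (L ^ 2)⁻¹, DifferentiableAt ℂ f w := by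
      intro w hw
      rw [mem_closedBall_zero_iff] at hw
      exact hf w (lt_of_le_of_lt hw hr1)
    refine ⟨fun w hw => (h w (Metric.ball_subset_closedBall hw)).differentiableWithinAt,
      fun w hw => ?_⟩
    rw [closure_ball _ hr.ne'] at hw
    exact (h w hw).continuousAt.continuousWithinAt
  have h3 := Complex.norm_iteratedDeriv_le_of_forall_mem_sphere_norm_le n hr hd
    (C := Real.exp 5 * M) (fun w hw => by
      rw [mem_sphere_zero_iff_norm] at hw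
      exact markov_disc hf hM hL h1 h2 hw.le)
  refine h3.trans (le_of_eq ?_)
  rw [inv_pow, ← pow_mul, div_inv_eq_mul]

/-- A local form of the three lines theorem. -/
theorem three_lines {a b τ U : ℝ} (hab : a < b) (hU : 0 < U) {f : ℂ → ℂ}
    (hf : ∀ z ∈ Icc a b ×ℂ Icc (τ - U) (τ + U), DifferentiableAt ℂ f z) {m N B : ℝ} (hm : 0 < m)
    (hmN : m ≤ N) (hB : B ≤ m * Real.exp (U ^ 2))
    (hl : ∀ y ∈ Icc (τ - U) (τ + U), ‖f ⟨a, y⟩‖ ≤ m)
    (hr : ∀ y ∈ Icc (τ - U) (τ + U), ‖f ⟨b, y⟩‖ ≤ N)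
    (hh : ∀ z ∈ Icc a b ×ℂ Icc (τ - U) (τ + U), ‖f z‖ ≤ B) {x : ℝ} (hx : x ∈ Icc a b) :
    ‖f ⟨x, τ⟩‖ ≤ Real.exp ((b - a) ^ 2) * m * (N / m) ^ ((x - a) / (b - a)) := by
  have hba : 0 < b - a := by linarith
  have hN : 0 < N := hm.trans_le hmN
  set κ : ℝ := Real.log (N / m) / (b - a) with hκ
  have hκ0 : 0 ≤ κ := div_nonneg (Real.log_nonneg (by rwa [le_div_iff₀ hm, one_mul])) hba.le
  set G : ℂ → ℂ := fun w => f w * Complex.exp ((w - (⟨x, τ⟩ : ℂ)) ^ 2 - (κ : ℂ) * (w - a)) with hG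
  have hre : ∀ w : ℂ, ((w - (⟨x, τ⟩ : ℂ)) ^ 2 - (κ : ℂ) * (w - a)).re =
      (w.re - x) ^ 2 - (w.im - τ) ^ 2 - κ * (w.re - a) := by
    intro w
    simp [pow_two, Complex.mul_re, Complex.mul_im]
  have hGn : ∀ w : ℂ, ‖G w‖ = ‖f w‖ *
      Real.exp ((w.re - x) ^ 2 - (w.im - τ) ^ 2 - κ * (w.re - a)) := by
    intro w
    rw [hG]; dsimp only
    rw [norm_mul, Complex.norm_exp, hre]
  obtain ⟨hx1, hx2⟩ := hx
  have hsq : ∀ y : ℝ, a ≤ y → y ≤ b → (y - x) ^ 2 ≤ (b - a) ^ 2 := by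
    intro y h1 h2
    nlinarith
  have hGM : ‖G ⟨x, τ⟩‖ ≤ m * Real.exp ((b - a) ^ 2) := by
    have hτ : τ - U < τ + U := by linarith
    refine rect_max (f := G) hab hτ ?_ ?_ ?_ ?_ ?_ ?_
    · intro w hw
      refine DifferentiableAt.mul (hf w hw) ?_
      fun_prop
    · intro y hy
      rw [hGn]
      refine mul_le_mul (hl y hy) (Real.exp_le_exp.2 ?_) (Real.exp_pos _).le hm.le
      have := hsq a le_rfl hab.le
      nlinarith [sq_nonneg (y - τ)]
    · intro y hy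
      rw [hGn]
      have h3 : Real.exp ((b - x) ^ 2 - (y - τ) ^ 2 - κ * (b - a)) ≤
          Real.exp ((b - a) ^ 2) * (m / N) := by
        have h4 : m / N = Real.exp (-(κ * (b - a))) := by
          rw [hκ, div_mul_cancel₀ _ hba.ne', ← Real.log_inv, Real.exp_log (by positivity), inv_div]
        rw [h4, ← Real.exp_add]
        apply Real.exp_le_exp.2
        have := hsq b hab.le le_rfl
        nlinarith [sq_nonneg (y - τ)]
      calc _ ≤ N * (Real.exp ((b - a) ^ 2) * (m / N)) := by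
            refine mul_le_mul (hr y hy) h3 (Real.exp_pos _).le hN.le
        _ = m * Real.exp ((b - a) ^ 2) := by field_simp
    · intro y hy
      rw [hGn]
      have h5 := hh ⟨y, τ - U⟩ (by
        rw [mem_reProdIm]; exact ⟨hy, ⟨le_rfl, by linarith⟩⟩)
      have h3 : Real.exp ((y - x) ^ 2 - (τ - U - τ) ^ 2 - κ * (y - a)) ≤
          Real.exp ((b - a) ^ 2) * Real.exp (-U ^ 2) := by
        rw [← Real.exp_add]
        apply Real.exp_le_exp.2
        have := hsq y hy.1 hy.2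
        nlinarith [mul_nonneg hκ0 (sub_nonneg.2 hy.1)]
      calc _ ≤ (m * Real.exp (U ^ 2)) * (Real.exp ((b - a) ^ 2) * Real.exp (-U ^ 2)) := by
            refine mul_le_mul (h5.trans hB) h3 (Real.exp_pos _).le (by positivity)
        _ = m * Real.exp ((b - a) ^ 2) * (Real.exp (U ^ 2) * Real.exp (-U ^ 2)) := by ring
        _ = m * Real.exp ((b - a) ^ 2) := by rw [← Real.exp_add]; simp
    · intro y hy
      rw [hGn]
      have h5 := hh ⟨y, τ + U⟩ (by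
        rw [mem_reProdIm]; exact ⟨hy, ⟨by linarith, le_rfl⟩⟩)
      have h3 : Real.exp ((y - x) ^ 2 - (τ + U - τ) ^ 2 - κ * (y - a)) ≤
          Real.exp ((b - a) ^ 2) * Real.exp (-U ^ 2) := by
        rw [← Real.exp_add]
        apply Real.exp_le_exp.2
        have := hsq y hy.1 hy.2
        nlinarith [mul_nonneg hκ0 (sub_nonneg.2 hy.1)]
      calc _ ≤ (m * Real.exp (U ^ 2)) * (Real.exp ((b - a) ^ 2) * Real.exp (-U ^ 2)) := by
            refine mul_le_mul (h5.trans hB) h3 (Real.exp_pos _).le (by positivity)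
        _ = m * Real.exp ((b - a) ^ 2) * (Real.exp (U ^ 2) * Real.exp (-U ^ 2)) := by ring
        _ = m * Real.exp ((b - a) ^ 2) := by rw [← Real.exp_add]; simp
    · rw [mem_reProdIm]
      exact ⟨⟨hx1, hx2⟩, ⟨by show τ - U ≤ τ; linarith, by show τ ≤ τ + U; linarith⟩⟩
  rw [hGn] at hGM
  have h6 : (N / m) ^ ((x - a) / (b - a)) = Real.exp (κ * (x - a)) := by
    rw [Real.rpow_def_of_pos (by positivity), hκ]
    congr 1
    field_simp
  rw [h6]
  have h7 : Real.exp ((x - x) ^ 2 - (τ - τ) ^ 2 - κ * (x - a)) = Real.exp (-(κ * (x - a))) := by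
    congr 1; ring
  have h8 : ‖f ⟨x, τ⟩‖ * Real.exp (-(κ * (x - a))) ≤ m * Real.exp ((b - a) ^ 2) := by
    rw [← h7]; exact hGM
  calc ‖f ⟨x, τ⟩‖ = (‖f ⟨x, τ⟩‖ * Real.exp (-(κ * (x - a)))) * Real.exp (κ * (x - a)) := by
        rw [mul_assoc, ← Real.exp_add]; simp
    _ ≤ (m * Real.exp ((b - a) ^ 2)) * Real.exp (κ * (x - a)) := by gcongr
    _ = _ := by ring

end Q241.MZ
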