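import Mathlib
import Pool.Agent.H448R2.GC.X2
import Pool.Agent.Q241.MZ.Win

/-!
Derivatives of the zeta function: Dirichlet series, growth, large values on the lines `1 + δ`
in every long interval (helper241).
-/

open Complex Set Filter Topology

namespace Q241.MZ

/-- the `l`-th derivative of zeta -/
noncomputable def D (l : ℕ) (s : ℂ) : ℂ := iteratedDeriv l riemannZeta s

lemma D_zero (s : ℂ) : D 0 s = riemannZeta s := by
  unfold D; rw [iteratedDeriv_zero]

lemma D_analyticAt (l : ℕ) {s : ℂ} (hs : s ≠ 1) : AnalyticAt ℂ (D l) s := by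
  have h0 : AnalyticOnNhd ℂ riemannZeta {1}ᶜ :=
    DifferentiableOn.analyticOnNhd
      (fun w hw => (differentiableAt_riemannZeta hw).differentiableWithinAt) isOpen_compl_singleton
  have h1 : AnalyticAt ℂ riemannZeta s := h0 s hs
  have h2 : D l = deriv^[l] riemannZeta := by
    funext w
    unfold D
    rw [iteratedDeriv_eq_iterate]
  rw [h2]
  exact h1.iterated_deriv l

lemma D_differentiableAt (l : ℕ) {s : ℂ} (hs : s ≠ 1) : DifferentiableAt ℂ (D l) s :=
  (D_analyticAt l hs).differentiableAt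

lemma deriv_D (l : ℕ) (s : ℂ) : deriv (D l) s = D (l + 1) s := by
  unfold D
  rw [iteratedDeriv_succ]

/-- growth in half planes -/
theorem growth_zero (X : ℝ) : ∃ C B : ℝ, 1 ≤ C ∧ 0 < B ∧ ∀ w : ℂ, -X ≤ w.re → 1 ≤ |w.im| →
    ‖riemannZeta w‖ ≤ C * (1 + |w.im|) ^ B := by
  obtain ⟨C, B, hC, hB, h⟩ := Pool.Agent.H448R2.GC.zeta_growth X
  refine ⟨C + 2, B, by linarith, hB, ?_⟩
  intro w h1 h2
  have hone : (1 : ℝ) ≤ 1 + |w.im| := by linarith [abs_nonneg w.im]
  have hp : (1 : ℝ) ≤ (1 + |w.im|) ^ B := Real.one_le_rpow hone hB.le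
  rcases le_total w.re 3 with h3 | h3
  · have h4 : 1 / 16 ≤ ‖w - 1‖ := by
      have := Complex.abs_im_le_norm (w - 1)
      simp only [sub_im, one_im, sub_zero] at this
      linarith
    refine (h w h1 h3 h4).trans ?_
    nlinarith
  · have h5 : ‖riemannZeta w‖ ≤ 2 := by
      have hw : 1 < w.re := by linarith
      rw [zeta_eq_tsum_one_div_nat_add_one_cpow hw]
      have hs : Summable fun n : ℕ => 1 / ((n : ℝ) + 1) ^ (2 : ℝ) := by
        have := (Real.summable_one_div_nat_rpow (p := 2)).2 (by norm_num)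
        exact_mod_cast (summable_nat_add_iff 1).2 this
      have hle : ∀ n : ℕ, ‖1 / ((n : ℂ) + 1) ^ w‖ ≤ 1 / ((n : ℝ) + 1) ^ (2 : ℝ) := by
        intro n
        rw [norm_div, norm_one]
        have : ‖((n : ℂ) + 1) ^ w‖ = ((n : ℝ) + 1) ^ w.re := by
          have := Complex.norm_cpow_eq_rpow_re_of_pos (x := (n : ℝ) + 1) (by positivity) w
          push_cast at this
          exact this
        rw [this]
        gcongr
        · linarith [Nat.cast_nonneg (α := ℝ) n]
        · linarith
      refine (norm_tsum_le_tsum_norm (Summable.of_nonneg_of_le (fun n => norm_nonneg _) hle hs)).trans ?_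
      refine (Summable.tsum_le_tsum hle
        (Summable.of_nonneg_of_le (fun n => norm_nonneg _) hle hs) hs).trans ?_
      have h6 : ∑' n : ℕ, 1 / ((n : ℝ) + 1) ^ (2 : ℝ) = Real.pi ^ 2 / 6 := by
        have h7 := hasSum_zeta_two.tsum_eq
        rw [hasSum_zeta_two.summable.tsum_eq_zero_add] at h7
        simp only [CharP.cast_eq_zero, ne_eq, OfNat.ofNat_ne_zero, not_false_eq_true, zero_pow,
          div_zero, zero_add] at h7
        rw [← h7]
        apply tsum_congr
        intro n
        push_cast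
        norm_cast
      rw [h6]
      have := Real.pi_lt_d2
      have := Real.pi_pos
      nlinarith
    nlinarith

/-- growth of the derivatives in half planes -/
theorem growth (l : ℕ) (X : ℝ) : ∃ C B : ℝ, 1 ≤ C ∧ 0 < B ∧ ∀ w : ℂ, -X ≤ w.re → 2 ≤ |w.im| →
    ‖D l w‖ ≤ C * (1 + |w.im|) ^ B := by
  obtain ⟨C, B, hC, hB, h⟩ := growth_zero (X + 1)
  refine ⟨l.factorial * (C * 2 ^ B), B, ?_, hB, ?_⟩
  · have h1 : (1 : ℝ) ≤ l.factorial := by exact_mod_cast Nat.succ_le_of_lt (Nat.factorial_pos l)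
    have h2 : (1 : ℝ) ≤ 2 ^ B := Real.one_le_rpow (by norm_num) hB.le
    have h3 : (1 : ℝ) ≤ C * 2 ^ B := by nlinarith
    nlinarith
  intro w h1 h2
  have hk : ∀ z ∈ Metric.closedBall w 1, z ≠ 1 ∧ ‖riemannZeta z‖ ≤ C * (2 ^ B * (1 + |w.im|) ^ B) := by
    intro z hz
    rw [mem_closedBall_iff_norm] at hz
    have h3 : |z.im - w.im| ≤ 1 := by
      have := Complex.abs_im_le_norm (z - w)
      rw [sub_im] at this
      linarith
    have h4 : |z.re - w.re| ≤ 1 := by
      have := Complex.abs_re_le_norm (z - w)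
      rw [sub_re] at this
      linarith
    have h5 : 1 ≤ |z.im| := by
      have := abs_sub_abs_le_abs_sub w.im z.im
      rw [abs_sub_comm] at this
      linarith
    have h6 : |z.im| ≤ |w.im| + 1 := by
      have := abs_sub_abs_le_abs_sub z.im w.im
      linarith
    constructor
    · rintro rfl
      norm_num at h5
    · refine (h z ?_ h5).trans ?_
      · rw [abs_le] at h4; linarith [h4.1]
      · have hone : (0 : ℝ) ≤ 1 + |w.im| := by linarith [abs_nonneg w.im]
        rw [← Real.mul_rpow (by norm_num) hone]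
        gcongr
        linarith [abs_nonneg w.im]
  have hd : DiffContOnCl ℂ riemannZeta (Metric.ball w 1) := by
    refine ⟨fun z hz => (differentiableAt_riemannZeta
      (hk z (Metric.ball_subset_closedBall hz)).1).differentiableWithinAt, fun z hz => ?_⟩
    rw [closure_ball _ one_ne_zero] at hz
    exact (differentiableAt_riemannZeta (hk z hz).1).continuousAt.continuousWithinAt
  have h3 := Complex.norm_iteratedDeriv_le_of_forall_mem_sphere_norm_le l one_pos hd
    (fun z hz => (hk z (Metric.sphere_subset_closedBall hz)).2)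
  refine h3.trans (le_of_eq ?_)
  rw [one_pow, div_one]
  ring

/-- the coefficients -/
noncomputable def co (l n : ℕ) : ℝ := Real.log n ^ l

lemma logMul_iter (l n : ℕ) : (LSeries.logMul^[l] (1 : ℕ → ℂ)) n = (co l n : ℂ) := by
  induction l with
  | zero => simp [co]
  | succ l ih =>
    rw [Function.iterate_succ_apply']
    unfold LSeries.logMul
    rw [ih]
    unfold co
    push_cast
    ring

lemma D_series (l : ℕ) {s : ℂ} (hs : 1 < s.re) :
    D l s = (-1) ^ l * LSeries (fun n => (co l n : ℂ)) s := by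
  have h1 : D l s = iteratedDeriv l (LSeries 1) s := by
    unfold D
    apply Filter.EventuallyEq.iteratedDeriv_eq
    filter_upwards [(isOpen_lt continuous_const Complex.continuous_re).mem_nhds hs] with w hw
    exact (LSeries_one_eq_riemannZeta hw).symm
  rw [h1, LSeries_iteratedDeriv l (by
    rw [LSeries.abscissaOfAbsConv_one]
    exact_mod_cast hs)]
  congr 2
  funext n
  exact logMul_iter l n

lemma summable_co (l : ℕ) {x : ℝ} (hx : 1 < x) : Summable fun n : ℕ => co l n / (n : ℝ) ^ x := by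
  have h : LSeriesSummable (LSeries.logMul^[l] (1 : ℕ → ℂ)) (x : ℂ) := by
    apply LSeriesSummable_of_abscissaOfAbsConv_lt_re
    rw [LSeries.absicssaOfAbsConv_logPowMul, LSeries.abscissaOfAbsConv_one]
    simpa using (by exact_mod_cast hx : (1 : EReal) < x)
  have h2 : Summable fun n : ℕ => LSeries.term (fun n => (co l n : ℂ)) (x : ℂ) n := by
    have : (LSeries.logMul^[l] (1 : ℕ → ℂ)) = (fun n => (co l n : ℂ)) := by
      funext n; exact logMul_iter l n
    rw [← this]; exact h
  have h3 := h2.norm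
  refine h3.congr ?_
  intro n
  rw [LSeries.term_def]
  split_ifs with hn
  · subst hn
    simp [Real.zero_rpow (by linarith : x ≠ 0)]
  · rw [norm_div, Complex.norm_real, Real.norm_eq_abs, abs_of_nonneg (by unfold co; positivity)]
    congr 1
    have := Complex.norm_natCast_cpow_of_pos (Nat.pos_of_ne_zero hn) (x : ℂ)
    rw [this]
    simp

/-- the terms -/
lemma D_hasSum (l : ℕ) {x : ℝ} (hx : 1 < x) (t : ℝ) :
    D l ⟨x, t⟩ = (-1) ^ l * ∑' n : ℕ, ((co l n / (n : ℝ) ^ x : ℝ) : ℂ) *
      Complex.exp (-(t * Real.log n) * I) := by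
  rw [D_series l (by exact hx)]
  congr 1
  unfold LSeries
  apply tsum_congr
  intro n
  rw [LSeries.term_def]
  split_ifs with hn
  · subst hn
    simp [Real.zero_rpow (by linarith : x ≠ 0)]
  · have hn0 : (0 : ℝ) < n := by exact_mod_cast Nat.pos_of_ne_zero hn
    have h1 : (n : ℂ) ^ (⟨x, t⟩ : ℂ) = ((n : ℝ) ^ x : ℝ) * Complex.exp ((t * Real.log n) * I) := by
      rw [Complex.cpow_def_of_ne_zero (by exact_mod_cast hn0.ne'), ← Complex.natCast_log,
        Real.rpow_def_of_pos hn0, Complex.ofReal_exp, ← Complex.exp_add]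
      congr 1
      have : (⟨x, t⟩ : ℂ) = x + t * I := Complex.mk_eq_add_mul_I x t
      rw [this]
      push_cast
      ring
    rw [h1, neg_mul, Complex.exp_neg]
    have h2 : ((n : ℝ) ^ x : ℝ) ≠ 0 := (Real.rpow_pos_of_pos hn0 x).ne'
    push_cast
    rw [div_mul_eq_div_div, div_eq_mul_inv (_ / _)]

/-- the derivatives are bounded in `Re s ≥ 2` -/
theorem bounded_right (l : ℕ) : ∃ S : ℝ, 1 ≤ S ∧ ∀ s : ℂ, 2 ≤ s.re → ‖D l s‖ ≤ S := by
  refine ⟨1 + ∑' n : ℕ, co l n / (n : ℝ) ^ (2 : ℝ), ?_, ?_⟩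
  · have : 0 ≤ ∑' n : ℕ, co l n / (n : ℝ) ^ (2 : ℝ) :=
      tsum_nonneg fun n => by unfold co; positivity
    linarith
  intro s hs
  have h1 : 1 < s.re := by linarith
  have h2 : D l s = D l ⟨s.re, s.im⟩ := rfl
  rw [h2, D_hasSum l h1, norm_mul, norm_pow, norm_neg, norm_one, one_pow, one_mul]
  have hle : ∀ n : ℕ, ‖((co l n / (n : ℝ) ^ s.re : ℝ) : ℂ) *
      Complex.exp (-(s.im * Real.log n) * I)‖ ≤ co l n / (n : ℝ) ^ (2 : ℝ) := by
    intro n
    have h3 : ‖Complex.exp (-(s.im * Real.log n) * I)‖ = 1 := by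
      have := Complex.norm_exp_ofReal_mul_I (-(s.im * Real.log n))
      rw [Complex.ofReal_neg, Complex.ofReal_mul] at this
      exact this
    have hc : 0 ≤ co l n := by unfold co; positivity
    rw [norm_mul, h3, mul_one, Complex.norm_real, Real.norm_eq_abs, abs_of_nonneg (by positivity)]
    rcases Nat.eq_zero_or_pos n with hn | hn
    · subst hn
      simp [Real.zero_rpow (by linarith : s.re ≠ 0)]
    · have : (1 : ℝ) ≤ n := by exact_mod_cast hn
      gcongr
  have hs2 := summable_co l (x := 2) (by norm_num)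
  have hs3 := Summable.of_nonneg_of_le (fun n => norm_nonneg _) hle hs2
  have := (norm_tsum_le_tsum_norm hs3).trans (Summable.tsum_le_tsum hle hs3 hs2)
  linarith

end Q241.MZ
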