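import Mathlib
import Pool.Agent.Q241.MZ.Ser

/-!
Large values of the derivatives of zeta on the lines `1 + δ` in every long interval (helper241).
-/

open Complex Set Filter Topology

namespace Q241.MZ

/-- almost periods of finitely many exponentials are relatively dense -/
theorem almost_periods (lam : ℕ → ℝ) (N : ℕ) {ε : ℝ} (hε : 0 < ε) :
    ∃ L : ℝ, 0 < L ∧ ∀ x : ℝ, ∃ t : ℝ, x ≤ t ∧ t ≤ x + L ∧
      ∀ n < N, ‖Complex.exp (-(t * lam n : ℝ) * I) - 1‖ ≤ ε := by
  set φ : ℝ → (Fin N → ℂ) := fun t i => Complex.exp (-(t * lam i : ℝ) * I) with hφ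
  have hn : ∀ t n, ‖Complex.exp (-(t * lam n : ℝ) * I)‖ = 1 := by
    intro t n
    have := Complex.norm_exp_ofReal_mul_I (-(t * lam n))
    rw [Complex.ofReal_neg] at this
    exact this
  have hsub : range φ ⊆ Metric.closedBall (0 : Fin N → ℂ) 1 := by
    rintro _ ⟨t, rfl⟩
    rw [mem_closedBall_zero_iff, pi_norm_le_iff_of_nonneg zero_le_one]
    intro i
    exact (hn t i).le
  have htb : TotallyBounded (range φ) :=
    (isCompact_closedBall (0 : Fin N → ℂ) 1).totallyBounded.subset hsub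
  obtain ⟨F, hF, hFf, hcov⟩ := Metric.finite_approx_of_totallyBounded htb ε hε
  have hch : ∀ c : (Fin N → ℂ), ∃ θ : ℝ, c ∈ F → φ θ = c := by
    intro c
    by_cases hc : c ∈ F
    · obtain ⟨θ, hθ⟩ := hF hc
      exact ⟨θ, fun _ => hθ⟩
    · exact ⟨0, fun h => absurd h hc⟩
  choose θ hθ using hch
  obtain ⟨K, hK⟩ := (hFf.image fun c => |θ c|).bddAbove
  have hK' : ∀ c ∈ F, |θ c| ≤ |K| + 1 := by
    intro c hc
    have h1 : |θ c| ≤ K := hK (mem_image_of_mem _ hc)
    linarith [le_abs_self K]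
  refine ⟨2 * (|K| + 1), by positivity, ?_⟩
  intro x
  obtain ⟨c, hc, hd⟩ := mem_iUnion₂.1 (hcov (mem_range_self (x + (|K| + 1))))
  have h1 := hK' c hc
  rw [abs_le] at h1
  refine ⟨x + (|K| + 1) - θ c, by linarith, by linarith, ?_⟩
  intro n hnN
  rw [Metric.mem_ball, ← hθ c hc, dist_eq_norm] at hd
  have h2 := (norm_le_pi_norm (φ (x + (|K| + 1)) - φ (θ c)) ⟨n, hnN⟩).trans hd.le
  simp only [hφ, Pi.sub_apply] at h2
  have h3 : Complex.exp (-((x + (|K| + 1) - θ c) * lam n : ℝ) * I) - 1 =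
      (Complex.exp (-((x + (|K| + 1)) * lam n : ℝ) * I) - Complex.exp (-(θ c * lam n : ℝ) * I)) *
        Complex.exp (-(-θ c * lam n : ℝ) * I) := by
    have e1 : Complex.exp (-((x + (|K| + 1) - θ c) * lam n : ℝ) * I) =
        Complex.exp (-((x + (|K| + 1)) * lam n : ℝ) * I) *
          Complex.exp (-(-θ c * lam n : ℝ) * I) := by
      rw [← Complex.exp_add]
      congr 1
      push_cast
      ring
    have e2 : Complex.exp (-(θ c * lam n : ℝ) * I) * Complex.exp (-(-θ c * lam n : ℝ) * I) = 1 := by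
      rw [← Complex.exp_add, ← Complex.exp_zero]
      congr 1
      push_cast
      ring
    rw [e1, sub_mul, e2]
  rw [h3, norm_mul, hn, mul_one]
  exact h2

/-- the sum of the coefficients diverges -/
lemma co_diverges (l : ℕ) (B : ℝ) : ∃ N : ℕ, B ≤ ∑ n ∈ Finset.range N, co l n / (n : ℝ) := by
  have h1 : Tendsto (fun N : ℕ => ∑ n ∈ Finset.range N, (1 / ((n : ℝ) + 3))) atTop atTop := by
    have h := Real.not_summable_one_div_natCast
    have h2 : ¬ Summable (fun n : ℕ => 1 / ((n : ℝ) + 3)) := by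
      intro hs
      apply h
      rw [← summable_nat_add_iff 3]
      refine hs.congr ?_
      intro n
      push_cast
      rfl
    exact not_summable_iff_tendsto_nat_atTop_of_nonneg (fun n => by positivity) |>.1 h2
  obtain ⟨N, hN⟩ := (tendsto_atTop.1 h1 B).exists
  refine ⟨N + 3, hN.trans ?_⟩
  rw [Finset.sum_range_succ' , Finset.sum_range_succ', Finset.sum_range_succ']
  have h0 : ∀ n : ℕ, 0 ≤ co l n / (n : ℝ) := by
    intro n; unfold co; positivity
  have h3 : ∀ n : ℕ, 1 / ((n : ℝ) + 3) ≤ co l (n + 1 + 1 + 1) / ((n + 1 + 1 + 1 : ℕ) : ℝ) := by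
    intro n
    have h4 : (1 : ℝ) ≤ co l (n + 1 + 1 + 1) := by
      unfold co
      apply one_le_pow₀
      rw [Real.le_log_iff_exp_le (by positivity)]
      have := Real.exp_one_lt_d9
      push_cast
      have h5 : (0 : ℝ) ≤ n := Nat.cast_nonneg n
      linarith
    have h6 : ((n + 1 + 1 + 1 : ℕ) : ℝ) = (n : ℝ) + 3 := by push_cast; ring
    rw [h6]
    gcongr
  have h5 := Finset.sum_le_sum fun n (_ : n ∈ Finset.range N) => h3 n
  exact le_add_of_le_of_nonneg (le_add_of_le_of_nonneg (le_add_of_le_of_nonneg h5 (h0 _)) (h0 _))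
    (h0 _)

/-- large values on a line `1 + δ` in every long interval -/
theorem large_right (l : ℕ) (B : ℝ) : ∃ δ : ℝ, 0 < δ ∧ δ ≤ 1 ∧ ∃ L : ℝ, 0 < L ∧ ∀ x : ℝ,
    ∃ t : ℝ, x ≤ t ∧ t ≤ x + L ∧ B ≤ ‖D l ⟨1 + δ, t⟩‖ := by
  obtain ⟨N, hN⟩ := co_diverges l (2 * |B| + 4)
  -- choose δ
  have hcont : Tendsto (fun δ : ℝ => ∑ n ∈ Finset.range N, co l n / (n : ℝ) ^ (1 + δ)) (𝓝[>] 0)
      (𝓝 (∑ n ∈ Finset.range N, co l n / (n : ℝ))) := by
    apply tendsto_finsetSum
    intro n _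
    rcases Nat.eq_zero_or_pos n with hn | hn
    · subst hn
      have : ∀ᶠ δ : ℝ in 𝓝[>] 0, co l 0 / ((0 : ℕ) : ℝ) ^ (1 + δ) = co l 0 / ((0 : ℕ) : ℝ) := by
        filter_upwards [self_mem_nhdsWithin] with δ hδ
        have hδ' : (0 : ℝ) < δ := hδ
        rw [Nat.cast_zero, Real.zero_rpow (by linarith)]
      exact (tendsto_congr' this).2 tendsto_const_nhds
    · have hn0 : (0 : ℝ) < n := by exact_mod_cast hn
      have h1 : ContinuousAt (fun δ : ℝ => co l n / (n : ℝ) ^ (1 + δ)) 0 := by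
        apply ContinuousAt.div continuousAt_const
        · exact ContinuousAt.rpow continuousAt_const (by fun_prop) (Or.inl hn0.ne')
        · exact (Real.rpow_pos_of_pos hn0 _).ne'
      have h2 := h1.tendsto
      simp only [add_zero, Real.rpow_one] at h2
      exact h2.mono_left nhdsWithin_le_nhds
  have hev := hcont.eventually (lt_mem_nhds (a := 2 * |B| + 3) (lt_of_lt_of_le (by linarith) hN))
  have hev2 : ∀ᶠ δ : ℝ in 𝓝[>] 0, δ ∈ Ioo (0 : ℝ) 1 :=
    Ioo_mem_nhdsGT one_pos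
  obtain ⟨δ, hδ1, hδ2⟩ := (hev.and hev2).exists
  have hx : 1 < 1 + δ := by linarith [hδ2.1]
  set a : ℕ → ℝ := fun n => co l n / (n : ℝ) ^ (1 + δ) with ha
  have ha0 : ∀ n, 0 ≤ a n := by intro n; rw [ha]; dsimp only; unfold co; positivity
  have hsum : Summable a := summable_co l hx
  -- choose the truncation
  have htail := hsum.hasSum.tendsto_sum_nat
  obtain ⟨N', hN'⟩ := ((htail.eventually (lt_mem_nhds (a := (∑' n, a n) - 1) (by linarith))).and
    (eventually_ge_atTop N)).exists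
  obtain ⟨hN1, hN2⟩ := hN'
  have hbig : 2 * |B| + 3 ≤ ∑ n ∈ Finset.range N', a n := by
    refine hδ1.le.trans (Finset.sum_le_sum_of_subset_of_nonneg ?_ fun n _ _ => ha0 n)
    exact Finset.range_mono hN2
  obtain ⟨L, hL, hper⟩ := almost_periods (fun n => Real.log n) N' (ε := 1 / 4) (by norm_num)
  refine ⟨δ, hδ2.1, hδ2.2.le, L, hL, ?_⟩
  intro x
  obtain ⟨t, ht1, ht2, ht3⟩ := hper x
  refine ⟨t, ht1, ht2, ?_⟩
  rw [D_hasSum l hx, norm_mul, norm_pow, norm_neg, norm_one, one_pow, one_mul]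
  set e : ℕ → ℂ := fun n => Complex.exp (-(t * Real.log n) * I) with he
  have hen : ∀ n, ‖e n‖ = 1 := by
    intro n
    have := Complex.norm_exp_ofReal_mul_I (-(t * Real.log n))
    rw [Complex.ofReal_neg, Complex.ofReal_mul] at this
    exact this
  have hle : ∀ n, ‖((a n : ℝ) : ℂ) * e n‖ = a n := by
    intro n
    rw [norm_mul, hen, mul_one, Complex.norm_real, Real.norm_eq_abs, abs_of_nonneg (ha0 n)]
  have hs2 : Summable fun n => ((a n : ℝ) : ℂ) * e n := by
    apply Summable.of_norm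
    simp only [hle]
    exact hsum
  have hsplit := hs2.sum_add_tsum_nat_add N'
  have hsplit2 := hsum.sum_add_tsum_nat_add N'
  have htl : ‖∑' n, ((a (n + N') : ℝ) : ℂ) * e (n + N')‖ ≤ 1 := by
    have h1 : Summable fun n => ‖((a (n + N') : ℝ) : ℂ) * e (n + N')‖ := by
      simp only [hle]
      exact (summable_nat_add_iff N').2 hsum
    refine (norm_tsum_le_tsum_norm h1).trans ?_
    simp only [hle]
    linarith
  have hmain : (∑ n ∈ Finset.range N', a n) * (3 / 4) ≤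
      ‖∑ n ∈ Finset.range N', ((a n : ℝ) : ℂ) * e n‖ := by
    have h1 : ‖(∑ n ∈ Finset.range N', ((a n : ℝ) : ℂ) * e n) -
        ((∑ n ∈ Finset.range N', a n : ℝ) : ℂ)‖ ≤ (∑ n ∈ Finset.range N', a n) * (1 / 4) := by
      rw [Complex.ofReal_sum, ← Finset.sum_sub_distrib, Finset.sum_mul]
      refine norm_sum_le_of_le _ ?_
      intro n hn
      have h2 := ht3 n (Finset.mem_range.1 hn)
      have h3 : ((a n : ℝ) : ℂ) * e n - (a n : ℂ) = (a n : ℂ) * (e n - 1) := by ring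
      rw [h3, norm_mul, Complex.norm_real, Real.norm_eq_abs, abs_of_nonneg (ha0 n)]
      refine mul_le_mul_of_nonneg_left ?_ (ha0 n)
      rw [he]
      rw [Complex.ofReal_mul] at h2
      exact h2
    have h4 : ‖((∑ n ∈ Finset.range N', a n : ℝ) : ℂ)‖ = ∑ n ∈ Finset.range N', a n := by
      rw [Complex.norm_real, Real.norm_eq_abs, abs_of_nonneg (Finset.sum_nonneg fun n _ => ha0 n)]
    have h5 := norm_sub_norm_le ((∑ n ∈ Finset.range N', a n : ℝ) : ℂ)
      (((∑ n ∈ Finset.range N', a n : ℝ) : ℂ) - ∑ n ∈ Finset.range N', ((a n : ℝ) : ℂ) * e n)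
    rw [sub_sub_cancel, h4, norm_sub_rev] at h5
    linarith
  rw [← hsplit]
  have h6 := norm_sub_norm_le (∑ n ∈ Finset.range N', ((a n : ℝ) : ℂ) * e n)
    (-∑' n, ((a (n + N') : ℝ) : ℂ) * e (n + N'))
  rw [sub_neg_eq_add, norm_neg] at h6
  have h7 := le_abs_self B
  have h8 := abs_nonneg B
  linarith

end Q241.MZ
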