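import Mathlib
import Pool.Agent.Q241.MZ.Inf

/-!
The maxima of the derivatives of zeta over `[T, 2T]` on a vertical line (helper241).
-/

open Complex Set Filter Topology

namespace Q241.MZ

/-- `M_l(σ, T) = max |ζ^(l)(σ + it)|`, `T ≤ t ≤ 2T` -/
noncomputable def M (l : ℕ) (σ T : ℝ) : ℝ :=
  sSup ((fun t : ℝ => ‖iteratedDeriv l riemannZeta (⟨σ, t⟩ : ℂ)‖) '' Icc T (2 * T))

lemma ne_one {σ t : ℝ} (ht : 0 < t) : (⟨σ, t⟩ : ℂ) ≠ 1 := by
  intro h
  have := congrArg Complex.im h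
  simp at this
  linarith

lemma hasDerivAt_line (l : ℕ) {σ t : ℝ} (ht : 0 < t) :
    HasDerivAt (fun t : ℝ => D l (⟨σ, t⟩ : ℂ)) (I * D (l + 1) ⟨σ, t⟩) t := by
  have h1 : HasDerivAt (D l) (D (l + 1) ⟨σ, t⟩) (⟨σ, t⟩ : ℂ) := by
    rw [← deriv_D]
    exact (D_differentiableAt l (ne_one ht)).hasDerivAt
  have h2 : HasDerivAt (fun t : ℝ => (⟨σ, t⟩ : ℂ)) I t := by
    have h3 : (fun t : ℝ => (⟨σ, t⟩ : ℂ)) = fun t : ℝ => (σ : ℂ) + (t : ℂ) * I := by
      funext t; exact Complex.mk_eq_add_mul_I σ t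
    rw [h3]
    have h4 : HasDerivAt (fun t : ℝ => (t : ℂ) * I) (1 * I) t :=
      (Complex.ofRealCLM.hasDerivAt (x := t)).mul_const I
    rw [one_mul] at h4
    exact h4.const_add _
  have h5 := HasDerivAt.scomp t h1 h2
  rw [smul_eq_mul] at h5
  exact h5

lemma isGreatest_M (l : ℕ) (σ : ℝ) {T : ℝ} (hT : 0 < T) :
    IsGreatest ((fun t : ℝ => ‖iteratedDeriv l riemannZeta (⟨σ, t⟩ : ℂ)‖) '' Icc T (2 * T))
      (M l σ T) := by
  have hc : ContinuousOn (fun t : ℝ => ‖iteratedDeriv l riemannZeta (⟨σ, t⟩ : ℂ)‖)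
      (Icc T (2 * T)) := by
    intro t ht
    have h := (hasDerivAt_line l (σ := σ) (lt_of_lt_of_le hT ht.1)).continuousAt
    exact h.norm.continuousWithinAt
  have hne : ((fun t : ℝ => ‖iteratedDeriv l riemannZeta (⟨σ, t⟩ : ℂ)‖) ''
      Icc T (2 * T)).Nonempty := (nonempty_Icc.2 (by linarith)).image _
  exact (isCompact_Icc.image_of_continuousOn hc).isGreatest_sSup hne

lemma le_M {l : ℕ} {σ T t : ℝ} (hT : 0 < T) (ht : t ∈ Icc T (2 * T)) :
    ‖D l ⟨σ, t⟩‖ ≤ M l σ T := (isGreatest_M l σ hT).2 (mem_image_of_mem _ ht)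

lemma M_attained (l : ℕ) (σ : ℝ) {T : ℝ} (hT : 0 < T) :
    ∃ t ∈ Icc T (2 * T), ‖D l ⟨σ, t⟩‖ = M l σ T := (isGreatest_M l σ hT).1

lemma M_nonneg {l : ℕ} {σ T : ℝ} (hT : 0 < T) : 0 ≤ M l σ T := by
  obtain ⟨t, -, h⟩ := M_attained l σ hT
  rw [← h]; exact norm_nonneg _

/-- mean value inequality -/
lemma mvt (l : ℕ) {σ T t t' : ℝ} (hT : 0 < T) (ht : t ∈ Icc T (2 * T)) (ht' : t' ∈ Icc T (2 * T)) :
    ‖D l ⟨σ, t⟩ - D l ⟨σ, t'⟩‖ ≤ M (l + 1) σ T * |t - t'| := by
  have h := Convex.norm_image_sub_le_of_norm_hasDerivWithin_le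
    (f := fun t : ℝ => D l (⟨σ, t⟩ : ℂ)) (f' := fun t => I * D (l + 1) ⟨σ, t⟩)
    (s := Icc T (2 * T)) (C := M (l + 1) σ T)
    (fun x hx => (hasDerivAt_line l (lt_of_lt_of_le hT hx.1)).hasDerivWithinAt)
    (fun x hx => by
      rw [norm_mul, Complex.norm_I, one_mul]
      exact le_M hT hx) (convex_Icc _ _) ht' ht
  rw [← Real.norm_eq_abs]
  exact h

/-- powers of `T` against `exp (A log T)` -/
lemma poly_exp {C B η : ℝ} (hC : 0 < C) (hB : 0 < B) (hη : 0 < η) : ∃ A T0 : ℝ, 1 ≤ A ∧ 1 < T0 ∧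
    ∀ T : ℝ, T0 ≤ T → 0 < Real.sqrt (A * Real.log T) ∧ 8 * Real.sqrt (A * Real.log T) ≤ T ∧
      C * (1 + 3 * T) ^ B ≤ η * Real.exp (A * Real.log T) := by
  refine ⟨B + 1, max (max 2 (64 * (B + 1))) (4 ^ B * (C / η)), by linarith, ?_, ?_⟩
  · exact lt_of_lt_of_le (by norm_num) ((le_max_left 2 _).trans (le_max_left _ _))
  intro T hT
  have h2 : 2 ≤ T := ((le_max_left 2 _).trans (le_max_left _ _)).trans hT
  have h3 : 64 * (B + 1) ≤ T := ((le_max_right 2 _).trans (le_max_left _ _)).trans hT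
  have h4 : 4 ^ B * (C / η) ≤ T := (le_max_right _ _).trans hT
  have hT0 : 0 < T := by linarith
  have hlog : 0 < Real.log T := Real.log_pos (by linarith)
  have hA : 0 < B + 1 := by linarith
  refine ⟨Real.sqrt_pos.2 (by positivity), ?_, ?_⟩
  · have h5 : Real.log T ≤ T := (Real.log_le_sub_one_of_pos hT0).trans (by linarith)
    have h6 : Real.sqrt ((B + 1) * Real.log T) ≤ T / 8 := by
      apply Real.sqrt_le_iff.2
      refine ⟨by positivity, ?_⟩
      calc (B + 1) * Real.log T ≤ (T / 64) * T := by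
            refine mul_le_mul (by linarith) h5 hlog.le (by positivity)
        _ = (T / 8) ^ 2 := by ring
    linarith
  · have h5 : Real.exp ((B + 1) * Real.log T) = T ^ B * T := by
      rw [mul_comm, ← Real.rpow_def_of_pos hT0, Real.rpow_add hT0, Real.rpow_one]
    rw [h5]
    have h6 : (1 + 3 * T) ^ B ≤ 4 ^ B * T ^ B := by
      rw [← Real.mul_rpow (by norm_num) hT0.le]
      apply Real.rpow_le_rpow (by positivity) (by linarith) hB.le
    calc C * (1 + 3 * T) ^ B ≤ C * (4 ^ B * T ^ B) := by gcongr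
      _ = η * (T ^ B * (4 ^ B * (C / η))) := by field_simp
      _ ≤ η * (T ^ B * T) := by gcongr

/-- the maxima tend to infinity -/
theorem M_large (l : ℕ) {σ : ℝ} (hσ : σ < 1) (B : ℝ) : ∃ T0 : ℝ, 1 < T0 ∧ ∀ T : ℝ, T0 ≤ T →
    B ≤ M l σ T := by
  obtain ⟨S, hS, hSb⟩ := bounded_right l
  obtain ⟨C, Bg, hC, hBg, hg⟩ := growth l (-σ)
  obtain ⟨A, T0, hA, hT0, hpe⟩ := poly_exp (C := C) (B := Bg) (η := 1) (by linarith) hBg one_pos
  set E := Real.exp ((3 - σ) ^ 2) with hE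
  have hE0 : 0 < E := Real.exp_pos _
  obtain ⟨δ, hδ, hδ1, L, hL, hlarge⟩ := large_right l (E * (|B| + S + 1))
  refine ⟨max T0 (max (8 * L) 2), lt_of_lt_of_le hT0 (le_max_left _ _), ?_⟩
  intro T hT
  have hT1 : T0 ≤ T := (le_max_left _ _).trans hT
  have hT2 : 8 * L ≤ T := ((le_max_left _ _).trans (le_max_right _ _)).trans hT
  have hT3 : 2 ≤ T := ((le_max_right _ _).trans (le_max_right _ _)).trans hT
  have hTp : 0 < T := by linarith
  obtain ⟨hU0, hU8, hUe⟩ := hpe T hT1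
  obtain ⟨t, ht1, ht2, ht3⟩ := hlarge (T + T / 4)
  set U := Real.sqrt (A * Real.log T) with hU
  have hU2 : U ^ 2 = A * Real.log T := by
    rw [hU, Real.sq_sqrt]
    exact (mul_pos (by linarith) (Real.log_pos (by linarith))).le
  set m := max (M l σ T) S with hm
  have hm1 : 1 ≤ m := hS.trans (le_max_right _ _)
  have hwin : ∀ y ∈ Icc (t - U) (t + U), y ∈ Icc T (2 * T) := by
    intro y hy
    exact ⟨by linarith [hy.1], by linarith [hy.2]⟩
  have h := three_lines (a := σ) (b := 3) (τ := t) (U := U) (f := D l) (m := m) (N := m)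
    (B := C * (1 + 3 * T) ^ Bg) (by linarith) hU0
    (fun z hz => by
      rw [mem_reProdIm] at hz
      have h1 := hwin _ hz.2
      apply D_differentiableAt
      have : z = ⟨z.re, z.im⟩ := rfl
      rw [this]
      exact ne_one (lt_of_lt_of_le hTp h1.1)) (by linarith) le_rfl
    (by
      rw [hU2]
      refine hUe.trans ?_
      rw [one_mul]
      have := Real.exp_pos (A * Real.log T)
      nlinarith)
    (fun y hy => (le_M hTp (hwin y hy)).trans (le_max_left _ _))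
    (fun y hy => (hSb _ (by norm_num)).trans (le_max_right _ _))
    (fun z hz => by
      rw [mem_reProdIm] at hz
      have h1 := hwin _ hz.2
      have h2 : |z.im| = z.im := abs_of_pos (lt_of_lt_of_le hTp h1.1)
      refine (hg z (by linarith [hz.1.1]) (by rw [h2]; linarith [h1.1])).trans ?_
      rw [h2]
      have : 0 ≤ 1 + z.im := by linarith [h1.1]
      gcongr
      linarith [h1.2])
    (x := 1 + δ) ⟨by linarith, by linarith⟩
  rw [div_self (by linarith : m ≠ 0), Real.one_rpow, mul_one] at h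
  have h4 : E * (|B| + S + 1) ≤ E * m := ht3.trans h
  have h5 : |B| + S + 1 ≤ m := le_of_mul_le_mul_left h4 hE0
  have h6 : M l σ T = m := by
    rw [hm]
    rcases le_total (M l σ T) S with h7 | h7
    · exfalso
      rw [hm, max_eq_right h7] at h5
      linarith [abs_nonneg B]
    · rw [max_eq_left h7]
  rw [h6]
  linarith [le_abs_self B]

/-- comparison of consecutive derivatives -/
theorem ratio_lower (l : ℕ) {σ : ℝ} (hσ : σ < 1) : ∃ K T0 : ℝ, 0 < K ∧ 1 < T0 ∧
    ∀ T : ℝ, T0 ≤ T → M l σ T ≤ K * Real.sqrt (Real.log T) * M (l + 1) σ T := by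
  obtain ⟨S, hS, hSb⟩ := bounded_right l
  obtain ⟨C, Bg, hC, hBg, hg⟩ := growth l (-σ)
  set q := 3 - σ with hq
  have hq0 : 0 < q := by linarith
  set E := Real.exp (q ^ 2) with hE
  have hE1 : 1 ≤ E := Real.one_le_exp (by positivity)
  set η : ℝ := (4 * E) ^ (-q) with hη
  have hη0 : 0 < η := Real.rpow_pos_of_pos (by linarith) _
  have hη1 : η ≤ 1 := Real.rpow_le_one_of_one_le_of_nonpos (by linarith) (by linarith)
  obtain ⟨A, T0, hA, hT0, hpe⟩ := poly_exp (C := 2 * C) (B := Bg) (η := η) (by linarith) hBg hη0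
  obtain ⟨T1, hT1, hbig⟩ := M_large l hσ (2 * S + 1)
  refine ⟨2 * Real.sqrt A / η, max T0 (max T1 2), by positivity,
    lt_of_lt_of_le hT0 (le_max_left _ _), ?_⟩
  intro T hT
  have hT1' : T0 ≤ T := (le_max_left _ _).trans hT
  have hT2 : T1 ≤ T := ((le_max_left _ _).trans (le_max_right _ _)).trans hT
  have hT3 : 2 ≤ T := ((le_max_right _ _).trans (le_max_right _ _)).trans hT
  have hTp : 0 < T := by linarith
  have hM := hbig T hT2
  obtain ⟨hU0, hU8, hUe⟩ := hpe T hT1'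
  by_contra hcon
  push Not at hcon
  set U := Real.sqrt (A * Real.log T) with hU
  have hlog : 0 < Real.log T := Real.log_pos (by linarith)
  have hU2 : U ^ 2 = A * Real.log T := by
    rw [hU, Real.sq_sqrt]
    exact (mul_pos (by linarith) hlog).le
  have hU3 : U = Real.sqrt A * Real.sqrt (Real.log T) := by
    rw [hU, Real.sqrt_mul (by linarith)]
  have hsmall : 2 * U * M (l + 1) σ T ≤ η * M l σ T := by
    have h1 : η * (2 * Real.sqrt A / η * Real.sqrt (Real.log T) * M (l + 1) σ T) ≤ η * M l σ T :=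
      mul_le_mul_of_nonneg_left hcon.le hη0.le
    refine le_trans (le_of_eq ?_) h1
    rw [hU3]
    field_simp
  obtain ⟨t0, ht0, ht0M⟩ := M_attained l σ hTp
  -- the window
  obtain ⟨τ, hτ⟩ : ∃ τ : ℝ, ∀ y ∈ Icc (τ - U) (τ + U), y ∈ Icc T (2 * T) ∧ |y - t0| ≤ 2 * U := by
    rcases le_total (t0 + 2 * U) (2 * T) with h | h
    · refine ⟨t0 + U, fun y hy => ⟨⟨by linarith [hy.1, ht0.1], by linarith [hy.2]⟩, ?_⟩⟩
      rw [abs_le]
      exact ⟨by linarith [hy.1], by linarith [hy.2]⟩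
    · refine ⟨t0 - U, fun y hy => ⟨⟨by linarith [hy.1], by linarith [hy.2, ht0.2]⟩, ?_⟩⟩
      rw [abs_le]
      exact ⟨by linarith [hy.1], by linarith [hy.2]⟩
  have hMg : M l σ T ≤ C * (1 + 3 * T) ^ Bg := by
    rw [← ht0M]
    refine (hg ⟨σ, t0⟩ (by simp) (by
      show 2 ≤ |t0|
      rw [abs_of_pos (by linarith [ht0.1])]; linarith [ht0.1])).trans ?_
    show C * (1 + |t0|) ^ Bg ≤ _
    rw [abs_of_pos (by linarith [ht0.1])]
    have : 0 ≤ 1 + t0 := by linarith [ht0.1]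
    gcongr
    linarith [ht0.2]
  have h := three_lines (a := σ) (b := 3) (τ := τ) (U := U)
    (f := fun s => D l s - D l ⟨σ, t0⟩) (m := η * M l σ T) (N := 2 * M l σ T)
    (B := 2 * C * (1 + 3 * T) ^ Bg) (by linarith) hU0
    (fun z hz => by
      rw [mem_reProdIm] at hz
      have h1 := (hτ _ hz.2).1
      refine (D_differentiableAt l ?_).sub_const _
      have : z = ⟨z.re, z.im⟩ := rfl
      rw [this]
      exact ne_one (lt_of_lt_of_le hTp h1.1))
    (by apply mul_pos hη0; linarith) (by nlinarith)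
    (by
      rw [hU2]
      refine hUe.trans ?_
      have h1 : η ≤ η * M l σ T := by nlinarith
      have := Real.exp_pos (A * Real.log T)
      nlinarith)
    (fun y hy => by
      obtain ⟨h1, h2⟩ := hτ y hy
      refine (mvt l hTp h1 ht0).trans ?_
      calc M (l + 1) σ T * |y - t0| ≤ M (l + 1) σ T * (2 * U) := by
            gcongr; exact M_nonneg hTp
        _ = 2 * U * M (l + 1) σ T := by ring
        _ ≤ _ := hsmall)
    (fun y hy => by
      refine (norm_sub_le _ _).trans ?_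
      rw [ht0M]
      have := hSb ⟨3, y⟩ (by norm_num)
      linarith)
    (fun z hz => by
      rw [mem_reProdIm] at hz
      have h1 := (hτ _ hz.2).1
      have h2 : |z.im| = z.im := abs_of_pos (lt_of_lt_of_le hTp h1.1)
      have h3 : ‖D l z‖ ≤ C * (1 + 3 * T) ^ Bg := by
        refine (hg z (by linarith [hz.1.1]) (by rw [h2]; linarith [h1.1])).trans ?_
        rw [h2]
        have : 0 ≤ 1 + z.im := by linarith [h1.1]
        gcongr
        linarith [h1.2]
      refine (norm_sub_le _ _).trans ?_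
      rw [ht0M]
      linarith)
    (x := 2) ⟨by linarith, by norm_num⟩
  have hM0 : 0 < M l σ T := by linarith
  have h5 : 2 * M l σ T / (η * M l σ T) = 2 / η := by field_simp
  have h6 : (2 - σ) / (3 - σ) = 1 - 1 / q := by
    have hne : (3 - σ) ≠ 0 := hq0.ne'
    rw [hq, eq_sub_iff_add_eq, ← add_div, div_eq_one_iff_eq hne]
    ring
  rw [h5, h6, Real.rpow_sub (by positivity), Real.rpow_one] at h
  have h7 : 4 * E ≤ (2 / η) ^ (1 / q) := by
    have h8 : (4 * E) = (η⁻¹) ^ (1 / q) := by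
      rw [hη, Real.rpow_neg (by linarith), inv_inv, ← Real.rpow_mul (by linarith),
        mul_one_div_cancel hq0.ne', Real.rpow_one]
    rw [h8]
    apply Real.rpow_le_rpow (by positivity) _ (by positivity)
    rw [inv_eq_one_div]
    gcongr
    norm_num
  have h9 : Real.exp (q ^ 2) * (η * M l σ T) * (2 / η / (2 / η) ^ (1 / q)) ≤ M l σ T / 2 := by
    calc Real.exp (q ^ 2) * (η * M l σ T) * (2 / η / (2 / η) ^ (1 / q))
        ≤ Real.exp (q ^ 2) * (η * M l σ T) * (2 / η / (4 * E)) := by gcongr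
      _ = M l σ T / 2 := by
        rw [← hE]
        have : E ≠ 0 := by linarith
        field_simp
        ring
  have h10 : ‖D l ⟨2, τ⟩ - D l ⟨σ, t0⟩‖ ≤ M l σ T / 2 := h.trans h9
  have h11 := norm_sub_norm_le (D l ⟨σ, t0⟩) (D l ⟨2, τ⟩)
  rw [norm_sub_rev, ht0M] at h11
  have h12 := hSb ⟨2, τ⟩ (by norm_num)
  linarith

/-- the upper bound -/
theorem upper (l : ℕ) {σ : ℝ} (hσ : σ < 1) : ∃ K T0 : ℝ, 0 < K ∧ 1 < T0 ∧
    ∀ T : ℝ, T0 ≤ T → M l σ T ≤ K * Real.log T ^ (2 * l) * M 0 σ T := by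
  obtain ⟨C, Bg, hC, hBg, hg⟩ := growth_zero (2 - σ)
  obtain ⟨A, T0, hA, hT0, hpe⟩ := poly_exp (C := C) (B := Bg) (η := 1) (by linarith) hBg one_pos
  obtain ⟨T1, hT1, hbig⟩ := M_large 0 hσ 1
  refine ⟨l.factorial * Real.exp 5 * A ^ (2 * l), max T0 (max T1 (Real.exp 2)), by positivity,
    lt_of_lt_of_le hT0 (le_max_left _ _), ?_⟩
  intro T hT
  have hT1' : T0 ≤ T := (le_max_left _ _).trans hT
  have hT2 : T1 ≤ T := ((le_max_left _ _).trans (le_max_right _ _)).trans hT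
  have hT3 : Real.exp 2 ≤ T := ((le_max_right _ _).trans (le_max_right _ _)).trans hT
  have hT4 : 3 ≤ T := by
    have := Real.add_one_le_exp (2 : ℝ)
    linarith
  have hTp : 0 < T := by linarith
  have hM := hbig T hT2
  have hM0 : 0 ≤ M 0 σ T := by linarith
  obtain ⟨-, -, hUe⟩ := hpe T hT1'
  rw [one_mul] at hUe
  have hlog : 2 ≤ Real.log T := by
    rw [Real.le_log_iff_exp_le hTp]; exact hT3
  set L := A * Real.log T with hL
  have hL2 : 2 ≤ L := by nlinarith
  obtain ⟨t0, ht0, ht0M⟩ := M_attained l σ hTp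
  obtain ⟨e, he1, he2⟩ : ∃ e : ℝ, (e = 1 ∨ e = -1) ∧
      ∀ x : ℝ, 0 ≤ x → x ≤ 1 → t0 + e * x ∈ Icc T (2 * T) := by
    rcases le_total (t0 + 1) (2 * T) with h | h
    · exact ⟨1, Or.inl rfl, fun x h1 h2 => ⟨by linarith [ht0.1], by linarith⟩⟩
    · exact ⟨-1, Or.inr rfl, fun x h1 h2 => ⟨by linarith, by linarith [ht0.2]⟩⟩
  have hee : (e : ℂ) * e = 1 := by
    rcases he1 with h | h <;> rw [h] <;> norm_num
  have hen : ‖(e : ℂ)‖ = 1 := by
    rcases he1 with h | h <;> rw [h] <;> norm_num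
  set s0 : ℂ := ⟨σ, t0⟩ with hs0
  set f : ℂ → ℂ := fun z => riemannZeta (s0 + I * e * z) with hf
  have hIe : ∀ z : ℂ, ‖I * e * z‖ = ‖z‖ := by
    intro z
    rw [norm_mul, norm_mul, hen, Complex.norm_I, one_mul, one_mul]
  have hpt : ∀ z : ℂ, ‖z‖ < 2 → σ - 2 ≤ (s0 + I * e * z).re ∧ T - 2 ≤ (s0 + I * e * z).im ∧
      (s0 + I * e * z).im ≤ 2 * T + 2 := by
    intro z hz
    have h1 := (Complex.abs_re_le_norm (I * e * z)).trans (hIe z).le
    have h2 := (Complex.abs_im_le_norm (I * e * z)).trans (hIe z).le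
    rw [abs_le] at h1 h2
    rw [add_re, add_im]
    have h3 : s0.re = σ := rfl
    have h4 : s0.im = t0 := rfl
    rw [h3, h4]
    exact ⟨by linarith [h1.1], by linarith [h2.1, ht0.1], by linarith [h2.2, ht0.2]⟩
  have hne : ∀ z : ℂ, ‖z‖ < 2 → s0 + I * e * z ≠ 1 := by
    intro z hz h
    have := (hpt z hz).2.1
    rw [h] at this
    simp at this
    linarith
  have hdisc : ∀ z : ℂ, ‖z‖ ≤ (L ^ 2)⁻¹ → ‖f z‖ ≤ Real.exp 5 * M 0 σ T := by
    intro z hz
    refine markov_disc (f := f) (M := M 0 σ T) (L := L) ?_ hM0 hL2 ?_ ?_ hz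
    · intro z hz
      have h1 : DifferentiableAt ℂ riemannZeta (s0 + I * e * z) :=
        differentiableAt_riemannZeta (hne z hz)
      exact DifferentiableAt.comp (f := fun z : ℂ => s0 + I * e * z) z h1 (by fun_prop)
    · intro z hz
      obtain ⟨h1, h2, h3⟩ := hpt z hz
      have h4 : |(s0 + I * e * z).im| = (s0 + I * e * z).im := abs_of_nonneg (by linarith)
      have h5 := hg (s0 + I * e * z) (by linarith) (by rw [h4]; linarith)
      rw [h4] at h5
      refine h5.trans (le_trans ?_ (hUe.trans ?_))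
      · have : 0 ≤ 1 + (s0 + I * e * z).im := by linarith
        gcongr
        linarith
      · have := Real.exp_pos L
        nlinarith
    · intro x hx0 hx1
      have h1 : s0 + I * e * (x : ℂ) = ⟨σ, t0 + e * x⟩ := by
        rw [hs0, Complex.ext_iff]
        simp
      have h2 := le_M (l := 0) (σ := σ) hTp (he2 x hx0 hx1)
      rw [D_zero] at h2
      rw [hf]; dsimp only
      rw [h1]
      exact h2
  have hL0 : 0 < L := by linarith
  have hr : 0 < (L ^ 2)⁻¹ := by positivity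
  have hr2 : (L ^ 2)⁻¹ < 2 := by
    have : (1 : ℝ) ≤ L ^ 2 := by nlinarith
    calc (L ^ 2)⁻¹ ≤ 1 := inv_le_one_of_one_le₀ this
      _ < 2 := by norm_num
  have hball : ∀ w ∈ Metric.closedBall s0 (L ^ 2)⁻¹, w ≠ 1 ∧ ‖riemannZeta w‖ ≤ Real.exp 5 * M 0 σ T := by
    intro w hw
    rw [mem_closedBall_iff_norm] at hw
    set z : ℂ := -I * e * (w - s0) with hz
    have h1 : s0 + I * e * z = w := by
      rw [hz]
      have h2 : I * e * (-I * e * (w - s0)) = -(I * I) * (e * e) * (w - s0) := by ring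
      rw [h2, Complex.I_mul_I, hee]
      ring
    have h3 : ‖z‖ = ‖w - s0‖ := by
      rw [hz, norm_mul, norm_mul, hen, norm_neg, Complex.norm_I, one_mul, one_mul]
    have h4 : ‖z‖ ≤ (L ^ 2)⁻¹ := by rw [h3]; exact hw
    refine ⟨?_, ?_⟩
    · rw [← h1]; exact hne z (by linarith)
    · have := hdisc z h4
      rw [hf] at this; dsimp only at this
      rw [h1] at this
      exact this
  have hd : DiffContOnCl ℂ riemannZeta (Metric.ball s0 (L ^ 2)⁻¹) := by
    refine ⟨fun z hz => (differentiableAt_riemannZeta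
      (hball z (Metric.ball_subset_closedBall hz)).1).differentiableWithinAt, fun z hz => ?_⟩
    rw [closure_ball _ hr.ne'] at hz
    exact (differentiableAt_riemannZeta (hball z hz).1).continuousAt.continuousWithinAt
  have h3 := Complex.norm_iteratedDeriv_le_of_forall_mem_sphere_norm_le l hr hd
    (fun z hz => (hball z (Metric.sphere_subset_closedBall hz)).2)
  rw [← ht0M]
  refine h3.trans (le_of_eq ?_)
  rw [inv_pow, ← pow_mul, div_inv_eq_mul, hL, mul_pow]
  ring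

end Q241.MZ
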